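import Mathlib

set_option autoImplicit false

namespace Pool.Agent.Results.MP_391eb1_al.Constant

/-- The set `LCM(G)`. -/
def LCMSet (G : Type*) [Group G] : Set G :=
  {x | ∀ n : ℕ, 0 < n → ∀ y : G, orderOf (x ^ n * y) ∣ Nat.lcm (orderOf (x ^ n)) (orderOf y)}

/-- The ratio `lcm(G) = |LCM(G)| / |G|`. -/
noncomputable def ratio (G : Type*) [Group G] : ℝ := ((LCMSet G).ncard : ℝ) / Nat.card G

lemma mem_iff {G H : Type*} [Group G] [Group H] (e : G ≃* H) (x : G) :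
    e x ∈ LCMSet H ↔ x ∈ LCMSet G := by
  refine forall₂_congr fun n _ => ?_
  rw [e.surjective.forall]
  simp only [← map_pow, ← map_mul, MulEquiv.orderOf_eq]

lemma ratio_congr {G H : Type*} [Group G] [Group H] (e : G ≃* H) : ratio G = ratio H := by
  rw [ratio, ratio, Nat.card_congr e.toEquiv, ← Set.ncard_image_of_injective _ e.injective]
  congr 3
  exact Set.ext (e.surjective.forall.mpr fun x => by rw [mem_iff, e.injective.mem_set_image])

lemma pow_of_mem {G : Type*} [Group G] {x y : G} {n m : ℕ} (h : x ∈ LCMSet G) (hn : 0 < n)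
    (hx : x ^ m = 1) (hy : y ^ m = 1) : (x ^ n * y) ^ m = 1 :=
  orderOf_dvd_iff_pow_eq_one.mp ((h n hn y).trans (Nat.lcm_dvd (orderOf_dvd_of_pow_eq_one
    (by rw [← pow_mul, mul_comm, pow_mul, hx, one_pow])) (orderOf_dvd_of_pow_eq_one hy)))

variable {p : ℕ} [hp : Fact p.Prime] {G : Type*} [Group G] [Finite G]

lemma coatom_card (hG : IsPGroup p G) {M : Subgroup G} (hM : IsCoatom M) :
    Nat.card G = p * Nat.card M ∧ ∀ K < M, p * Nat.card K ≤ Nat.card M := by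
  obtain ⟨N, hN⟩ := IsPGroup.iff_card.mp hG
  have key (K L : Subgroup G) (h : K < L) : ∃ i j, Nat.card K = p ^ i ∧ Nat.card L = p ^ j ∧
      i < j := by
    obtain ⟨i, hi⟩ := IsPGroup.iff_card.mp (hG.to_subgroup K)
    obtain ⟨j, hj⟩ := IsPGroup.iff_card.mp (hG.to_subgroup L)
    refine ⟨i, j, hi, hj, (Nat.pow_lt_pow_iff_right hp.out.one_lt).mp ?_⟩
    rw [← hi, ← hj]
    exact Set.ncard_lt_ncard (s := (K : Set G)) (t := L) (SetLike.coe_ssubset_coe.mpr h)
  refine ⟨?_, fun K hK => ?_⟩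
  · obtain ⟨i, j, hi, hj, hij⟩ := key M ⊤ hM.lt_top
    rw [Subgroup.card_top] at hj
    obtain ⟨K, h1, h2⟩ := Sylow.exists_subgroup_card_pow_succ (G := G) (p := p) (n := i)
      (hj ▸ pow_dvd_pow p hij) hi
    rw [hM.2 K (h2.lt_of_ne fun e => by
      rw [← e, hi] at h1; simpa using Nat.pow_right_injective hp.out.two_le h1),
      Subgroup.card_top] at h1
    rw [h1, hi, pow_succ']
  obtain ⟨i, j, hi, hj, hij⟩ := key K M hK
  rw [hi, hj, ← pow_succ']
  exact Nat.pow_le_pow_right hp.out.pos hij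

lemma minimal (hG : IsPGroup p G) (h1 : ∀ H : Subgroup G, H ≠ ⊤ → LCMSet H = Set.univ)
    (h2 : LCMSet G ≠ Set.univ) : ratio G ≤ 1 - 2 * (p - 1) / p ^ 2 := by
  obtain ⟨x, hx⟩ := (Set.ne_univ_iff_exists_notMem _).mp h2
  simp only [LCMSet, Set.mem_ofPred_eq, not_forall] at hx
  obtain ⟨n, -, b, hab⟩ := hx
  generalize x ^ n = a at hab
  have ha : a ^ Nat.lcm (orderOf a) (orderOf b) = 1 :=
    orderOf_dvd_iff_pow_eq_one.mp (Nat.dvd_lcm_left _ _)
  have hb : b ^ Nat.lcm (orderOf a) (orderOf b) = 1 :=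
    orderOf_dvd_iff_pow_eq_one.mp (Nat.dvd_lcm_right _ _)
  rw [orderOf_dvd_iff_pow_eq_one] at hab
  generalize Nat.lcm (orderOf a) (orderOf b) = m at ha hb hab
  have h3 (H : Subgroup G) (hH : H ≠ ⊤) (u v : G) (hu : u ∈ H) (hv : v ∈ H) (hum : u ^ m = 1)
      (hvm : v ^ m = 1) : (u * v) ^ m = 1 := by
    simpa using congrArg Subtype.val (pow_of_mem (x := (⟨u, hu⟩ : H)) (y := ⟨v, hv⟩) (m := m)
      (h1 H hH ▸ Set.mem_univ _) one_pos (Subtype.ext hum) (Subtype.ext hvm))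
  have h4 (H : Subgroup G) (hu : a ∈ H) (hv : b ∈ H) : H = ⊤ :=
    by_contra fun hH => hab (h3 H hH a b hu hv ha hb)
  have h5 (c : G) : ∃ M : Subgroup G, IsCoatom M ∧ c ∈ M := by
    refine ((eq_top_or_exists_le_coatom (Subgroup.zpowers c)).resolve_left fun e => hab ?_).imp
      fun M hM => ⟨hM.1, hM.2 (Subgroup.mem_zpowers c)⟩
    obtain ⟨i, rfl⟩ : a ∈ Subgroup.zpowers c := e ▸ Subgroup.mem_top _
    obtain ⟨j, rfl⟩ : b ∈ Subgroup.zpowers c := e ▸ Subgroup.mem_top _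
    rw [(Commute.zpow_zpow_self c i j).mul_pow, ha, hb, one_mul]
  have := hG.isNilpotent
  have h6 (M : Subgroup G) (hM : IsCoatom M) : M.Normal :=
    Subgroup.NormalizerCondition.normal_of_coatom M Group.normalizerCondition_of_isNilpotent hM
  let K (M : Subgroup G) (hM : IsCoatom M) : Subgroup G :=
    { carrier := {g | g ∈ M ∧ g ^ m = 1}
      one_mem' := ⟨M.one_mem, one_pow m⟩
      mul_mem' := fun hu hv => ⟨M.mul_mem hu.1 hv.1, h3 M hM.1 _ _ hu.1 hv.1 hu.2 hv.2⟩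
      inv_mem' := fun hu => ⟨M.inv_mem hu.1, by rw [inv_pow, hu.2, inv_one]⟩ }
  have h7 (M : Subgroup G) (hM : IsCoatom M) : (K M hM).Normal :=
    ⟨fun g hg u => ⟨(h6 M hM).conj_mem g hg.1 u, by rw [conj_pow, hg.2]; simp⟩⟩
  have h8 (M N : Subgroup G) (hM : IsCoatom M) (hN : IsCoatom N) (e : K M hM ⊔ K N hN = ⊤)
      (g : G) (hg : g ∈ M) : g ^ m = 1 := by
    have := h7 M hM
    obtain ⟨u, hu, v, hv, rfl⟩ := Subgroup.mem_sup_of_normal_left.mp (e ▸ Subgroup.mem_top g)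
    exact h3 M hM.1 u v hu.1 ((M.mul_mem_cancel_left hu.1).mp hg) hu.2 hv.2
  have h9 (N : Subgroup G) (hN : IsCoatom N) (hNm : ∀ g ∈ N, g ^ m = 1) (g : G) (hg : g ^ m = 1)
      (hgN : g ∉ N) : g ∉ LCMSet G := fun hL => by
    have := h6 N hN
    have e : Subgroup.zpowers g ⊔ N = ⊤ := hN.2 _ (le_sup_right.lt_of_ne fun e =>
      hgN (e ▸ Subgroup.mem_sup_left (Subgroup.mem_zpowers g)))
    obtain ⟨u, hu, v, hv, huv⟩ :=
      Subgroup.mem_sup_of_normal_right.mp (e ▸ Subgroup.mem_top (a * b))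
    obtain ⟨j, rfl⟩ := mem_powers_iff_mem_zpowers.mpr hu
    refine hab (huv ▸ ?_)
    rcases j.eq_zero_or_pos with rfl | hj
    · simpa using hNm v hv
    exact pow_of_mem hL hj hg (hNm v hv)
  obtain ⟨M, hM, haM⟩ := h5 a
  obtain ⟨N, hN, hbN⟩ := h5 b
  have e : K M hM ⊔ K N hN = ⊤ :=
    h4 _ (Subgroup.mem_sup_left ⟨haM, ha⟩) (Subgroup.mem_sup_right ⟨hbN, hb⟩)
  have hMm := h8 M N hM hN e
  have hNm := h8 N M hN hM (by rwa [sup_comm])
  have hMN : M ⊓ N < M := inf_le_left.lt_of_ne fun e =>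
    hN.1 (h4 N ((e.ge haM).2) hbN)
  have c1 := (coatom_card hG hM).1
  have c2 := (coatom_card hG hN).1
  have c3 := (coatom_card hG hM).2 _ hMN
  have c4 := Set.ncard_union_add_ncard_inter (M : Set G) N
  have c5 := Set.ncard_add_ncard_compl ((M : Set G) ∪ N)
  have c6 : (LCMSet G).ncard ≤ ((M : Set G) ∪ N)ᶜ.ncard + ((M : Set G) ∩ N).ncard := by
    refine (Set.ncard_le_ncard (fun g hg => ?_)).trans (Set.ncard_union_le _ _)
    by_cases gM : g ∈ M <;> by_cases gN : g ∈ N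
    · exact .inr ⟨gM, gN⟩
    · exact absurd hg (h9 N hN hNm g (hMm g gM) gN)
    · exact absurd hg (h9 M hM hMm g (hNm g gN) gM)
    · exact .inl (by simp [gM, gN])
  change p * ((M : Set G) ∩ N).ncard ≤ (M : Set G).ncard at c3
  change _ = p * (M : Set G).ncard at c1
  change _ = p * (N : Set G).ncard at c2
  have hp0 : (0 : ℝ) < p := by exact_mod_cast hp.out.pos
  have hG0 : (0 : ℝ) < Nat.card G := by exact_mod_cast Nat.card_pos
  rw [ratio, div_le_iff₀ hG0, ← mul_le_mul_iff_right₀ (pow_pos hp0 2)]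
  field_simp
  rify at c1 c2 c3 c4 c5 c6
  have c7 : ((N : Set G).ncard : ℝ) = (M : Set G).ncard := mul_left_cancel₀ hp0.ne' (c2 ▸ c1)
  rw [c1] at c5 ⊢
  nlinarith [mul_le_mul_of_nonneg_left c3 hp0.le, mul_le_mul_of_nonneg_left c6 (sq_nonneg (p : ℝ))]

/-- `c = 1 - 2(p-1)/p²` works for every prime `p`. -/
theorem result (p : ℕ) (hp : p.Prime) : ∃ c : ℝ, c = 1 - 2 * (p - 1) / p ^ 2 ∧ 0 < c ∧ c < 1 ∧
    ∀ (G : Type) [Group G] [Finite G], IsPGroup p G →
      (∀ (H : Subgroup G) (K : Subgroup H) [K.Normal], c < ratio (H ⧸ K)) →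
        LCMSet G = Set.univ := by
  have := Fact.mk hp
  have h2 : (2 : ℝ) ≤ p := by exact_mod_cast hp.two_le
  refine ⟨_, rfl, ?_, sub_lt_self _ (div_pos (by linarith) (by positivity)), fun G _ _ hG h => ?_⟩
  · rw [sub_pos, div_lt_one (by positivity)]; nlinarith
  have key (H : Subgroup G) : LCMSet H = Set.univ := by
    induction H using WellFoundedLT.induction with
    | ind H ih =>
      by_contra h1
      refine (h H ⊥).not_ge ((ratio_congr (QuotientGroup.quotientBot (G := H))).trans_le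
        (minimal (hG.to_subgroup H) (fun L hL => Set.eq_univ_of_forall fun x => ?_) h1))
      refine (mem_iff (L.equivMapOfInjective H.subtype H.subtype_injective) x).mp ?_
      rw [ih _ ((Subgroup.map_subtype_le L).lt_of_ne fun e => hL ?_)]
      · trivial
      exact Subgroup.map_injective H.subtype_injective
        (by rw [e, ← MonoidHom.range_eq_map, Subgroup.range_subtype])
  exact Set.eq_univ_of_forall fun x => (mem_iff Subgroup.topEquiv ⟨x, trivial⟩).mpr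
    (key ⊤ ▸ Set.mem_univ _)

end Pool.Agent.Results.MP_391eb1_al.Constant
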